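import Pool.Agent.Helper3.AK.Goals3

/-!
Packet AK-OP: the operator lemma for the walk.
-/

namespace Pool.Agent.Helper64.AK

open Equiv Pool.Agent.Helper3.AK

variable {n r k : ℕ}

/-! ### the scalar product -/

theorem ip_comm (φ ψ : Fn n r) : ip φ ψ = ip ψ φ := by
  unfold ip
  exact Finset.sum_congr rfl (fun a _ => mul_comm _ _)

theorem ip_add_left (φ φ' ψ : Fn n r) : ip (φ + φ') ψ = ip φ ψ + ip φ' ψ := by
  unfold ip
  rw [← Finset.sum_add_distrib]
  exact Finset.sum_congr rfl (fun a _ => by rw [Pi.add_apply]; ring)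

theorem ip_sub_left (φ φ' ψ : Fn n r) : ip (φ - φ') ψ = ip φ ψ - ip φ' ψ := by
  unfold ip
  rw [← Finset.sum_sub_distrib]
  exact Finset.sum_congr rfl (fun a _ => by rw [Pi.sub_apply]; ring)

theorem ip_smul_left (c : ℝ) (φ ψ : Fn n r) : ip (c • φ) ψ = c * ip φ ψ := by
  unfold ip
  rw [Finset.mul_sum]
  exact Finset.sum_congr rfl (fun a _ => by rw [Pi.smul_apply, smul_eq_mul]; ring)

theorem ip_add_right (φ ψ ψ' : Fn n r) : ip φ (ψ + ψ') = ip φ ψ + ip φ ψ' := by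
  rw [ip_comm, ip_add_left, ip_comm ψ, ip_comm ψ']

theorem ip_sub_right (φ ψ ψ' : Fn n r) : ip φ (ψ - ψ') = ip φ ψ - ip φ ψ' := by
  rw [ip_comm, ip_sub_left, ip_comm ψ, ip_comm ψ']

theorem ip_smul_right (c : ℝ) (φ ψ : Fn n r) : ip φ (c • ψ) = c * ip φ ψ := by
  rw [ip_comm, ip_smul_left, ip_comm]

theorem ip_sum_left {ι : Type} (s : Finset ι) (F : ι → Fn n r) (ψ : Fn n r) :
    ip (∑ i ∈ s, F i) ψ = ∑ i ∈ s, ip (F i) ψ := by
  classical
  induction s using Finset.induction_on with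
  | empty => simp [ip]
  | insert i s hi ih => rw [Finset.sum_insert hi, Finset.sum_insert hi, ip_add_left, ih]

theorem ip_self_nonneg (φ : Fn n r) : 0 ≤ ip φ φ :=
  Finset.sum_nonneg (fun a _ => mul_self_nonneg _)

theorem ip_self_pos {φ : Fn n r} (h : φ ≠ 0) : 0 < ip φ φ := by
  rcases Function.ne_iff.1 h with ⟨a, ha⟩
  refine lt_of_lt_of_le ?_ (Finset.single_le_sum (f := fun a => φ a * φ a)
    (fun a _ => mul_self_nonneg _) (Finset.mem_univ a))
  exact mul_self_pos.2 ha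

/-- composition with a permutation, as an equivalence of the set of tuples -/
def tr (g : Perm (Fin n)) : (Fin r ↪ Fin n) ≃ (Fin r ↪ Fin n) where
  toFun a := a.trans g.toEmbedding
  invFun a := a.trans (g⁻¹).toEmbedding
  left_inv a := by ext i; simp
  right_inv a := by ext i; simp

theorem ip_Act_Act (g : Perm (Fin n)) (φ ψ : Fn n r) : ip (Act g φ) (Act g ψ) = ip φ ψ := by
  unfold ip
  exact Fintype.sum_equiv (tr g) _ _ (fun a => rfl)

theorem Act_inv_Act (g : Perm (Fin n)) (φ : Fn n r) : Act g⁻¹ (Act g φ) = φ := by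
  have h := congrArg (fun A : Fn n r →ₗ[ℝ] Fn n r => A φ) (Act_mul (n := n) (r := r) g g⁻¹)
  simp only [mul_inv_cancel, Act_one, Module.End.one_apply, Module.End.mul_apply] at h
  exact h.symm

theorem Act_Act_inv (g : Perm (Fin n)) (φ : Fn n r) : Act g (Act g⁻¹ φ) = φ := by
  have h := Act_inv_Act g⁻¹ φ
  rwa [inv_inv] at h

theorem ip_Act (g : Perm (Fin n)) (φ ψ : Fn n r) : ip (Act g φ) ψ = ip φ (Act g⁻¹ ψ) := by
  rw [← ip_Act_Act g⁻¹ (Act g φ) ψ, Act_inv_Act]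

theorem ip_Act_le (g : Perm (Fin n)) (φ : Fn n r) : ip (Act g φ) φ ≤ ip φ φ := by
  have h := ip_self_nonneg (Act g φ - φ)
  rw [ip_sub_left, ip_sub_right, ip_sub_right, ip_Act_Act, ip_comm φ (Act g φ)] at h
  linarith

theorem neg_le_ip_Act (g : Perm (Fin n)) (φ : Fn n r) : - ip φ φ ≤ ip (Act g φ) φ := by
  have h := ip_self_nonneg (Act g φ + φ)
  rw [ip_add_left, ip_add_right, ip_add_right, ip_Act_Act, ip_comm φ (Act g φ)] at h
  linarith

theorem ip_Act_inv_self (g : Perm (Fin n)) (φ : Fn n r) :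
    ip (Act g⁻¹ φ) φ = ip (Act g φ) φ := by
  rw [ip_Act g⁻¹, inv_inv, ip_comm]

/-! ### the walk -/

theorem Wk_apply' (z : Fin k → Alt n) (φ : Fn n r) : Wk z φ = (2 * (k : ℝ))⁻¹ •
    ∑ i, (Act (z i : Perm (Fin n)) φ + Act ((z i : Perm (Fin n))⁻¹) φ) := by
  simp only [Wk, LinearMap.smul_apply, LinearMap.sum_apply, LinearMap.add_apply]

theorem ip_Wk (z : Fin k → Alt n) (φ ψ : Fn n r) : ip (Wk z φ) ψ = (2 * (k : ℝ))⁻¹ *
    ∑ i, (ip (Act (z i : Perm (Fin n)) φ) ψ + ip (Act ((z i : Perm (Fin n))⁻¹) φ) ψ) := by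
  rw [Wk_apply', ip_smul_left, ip_sum_left]
  congr 1
  exact Finset.sum_congr rfl (fun i _ => ip_add_left _ _ _)

theorem Wk_symm (z : Fin k → Alt n) (φ ψ : Fn n r) : ip (Wk z φ) ψ = ip φ (Wk z ψ) := by
  rw [ip_comm φ, ip_Wk, ip_Wk]
  congr 1
  refine Finset.sum_congr rfl (fun i _ => ?_)
  rw [ip_Act, ip_Act (_⁻¹), inv_inv, ip_comm φ, ip_comm φ, add_comm]

theorem ip_Wk_self (z : Fin k → Alt n) (φ : Fn n r) : ip (Wk z φ) φ = (k : ℝ)⁻¹ *
    ∑ i, ip (Act (z i : Perm (Fin n)) φ) φ := by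
  rw [ip_Wk]
  have h : ∀ i : Fin k, ip (Act (z i : Perm (Fin n)) φ) φ +
      ip (Act ((z i : Perm (Fin n))⁻¹) φ) φ = 2 * ip (Act (z i : Perm (Fin n)) φ) φ := by
    intro i
    rw [ip_Act_inv_self]
    ring
  simp only [h]
  rw [← Finset.mul_sum, mul_inv]
  ring

theorem ip_Wk_le (hk : 1 ≤ k) (z : Fin k → Alt n) (φ : Fn n r) : ip (Wk z φ) φ ≤ ip φ φ := by
  have hk0 : (0 : ℝ) < k := by exact_mod_cast hk
  rw [ip_Wk_self, inv_mul_le_iff₀ hk0]
  calc ∑ i, ip (Act (z i : Perm (Fin n)) φ) φ ≤ ∑ _i : Fin k, ip φ φ :=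
        Finset.sum_le_sum (fun i _ => ip_Act_le _ _)
    _ = k * ip φ φ := by simp

theorem neg_le_ip_Wk (hk : 1 ≤ k) (z : Fin k → Alt n) (φ : Fn n r) :
    - ip φ φ ≤ ip (Wk z φ) φ := by
  have hk0 : (0 : ℝ) < k := by exact_mod_cast hk
  rw [ip_Wk_self, le_inv_mul_iff₀ hk0]
  calc (k : ℝ) * (- ip φ φ) = ∑ _i : Fin k, (- ip φ φ) := by simp
    _ ≤ ∑ i, ip (Act (z i : Perm (Fin n)) φ) φ :=
        Finset.sum_le_sum (fun i _ => neg_le_ip_Act _ _)

theorem Lz_apply (z : Fin k → Alt n) (φ : Fn n r) :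
    Lz z φ = (1 / 2 : ℝ) • (φ + Wk z φ) := by
  simp only [Lz, LinearMap.smul_apply, LinearMap.add_apply, LinearMap.id_apply]

theorem ip_Lz (z : Fin k → Alt n) (φ ψ : Fn n r) :
    ip (Lz z φ) ψ = (1 / 2) * (ip φ ψ + ip (Wk z φ) ψ) := by
  rw [Lz_apply, ip_smul_left, ip_add_left]

theorem Lz_symm (z : Fin k → Alt n) (φ ψ : Fn n r) : ip (Lz z φ) ψ = ip φ (Lz z ψ) := by
  rw [ip_comm φ, ip_Lz, ip_Lz, Wk_symm, ip_comm φ ψ, ip_comm φ]

/-! ### the functions with vanishing marginals -/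

/-- the subspace of the functions with vanishing marginals -/
def ZmS (n r : ℕ) : Submodule ℝ (Fn n r) where
  carrier := {φ | Zm φ}
  add_mem' := by
    intro φ ψ hφ hψ j a
    simp only [Pi.add_apply]
    rw [Finset.sum_add_distrib, hφ j a, hψ j a, add_zero]
  zero_mem' := by
    intro j a
    simp
  smul_mem' := by
    intro c φ hφ j a
    simp only [Pi.smul_apply, smul_eq_mul]
    rw [← Finset.mul_sum, hφ j a, mul_zero]

theorem Act_mem (g : Perm (Fin n)) {φ : Fn n r} (h : φ ∈ ZmS n r) : Act g φ ∈ ZmS n r := by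
  intro j a
  have h1 := h j (tr g a)
  rw [← h1]
  refine Finset.sum_equiv (tr g) ?_ (fun b _ => rfl)
  intro b
  simp only [Finset.mem_filter, Finset.mem_univ, true_and]
  refine forall_congr' (fun i => imp_congr_right (fun _ => ?_))
  change _ ↔ g (b i) = g (a i)
  exact g.injective.eq_iff.symm

theorem Wk_mem (z : Fin k → Alt n) {φ : Fn n r} (h : φ ∈ ZmS n r) : Wk z φ ∈ ZmS n r := by
  rw [Wk_apply']
  refine Submodule.smul_mem _ _ (Submodule.sum_mem _ (fun i _ => ?_))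
  exact Submodule.add_mem _ (Act_mem _ h) (Act_mem _ h)

theorem Lz_mem (z : Fin k → Alt n) {φ : Fn n r} (h : φ ∈ ZmS n r) : Lz z φ ∈ ZmS n r := by
  rw [Lz_apply]
  exact Submodule.smul_mem _ _ (Submodule.add_mem _ h (Wk_mem z h))

/-- the same subspace in the euclidean space -/
def WE (n r : ℕ) : Submodule ℝ (EuclideanSpace ℝ (Fin r ↪ Fin n)) where
  carrier := {v | WithLp.ofLp v ∈ ZmS n r}
  add_mem' := by
    intro v w hv hw
    exact (ZmS n r).add_mem hv hw
  zero_mem' := (ZmS n r).zero_mem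
  smul_mem' := by
    intro c v hv
    exact (ZmS n r).smul_mem c hv

/-- an operator preserving the subspace, as an operator on the euclidean subspace -/
def lft (A : Fn n r →ₗ[ℝ] Fn n r) (hA : ∀ φ ∈ ZmS n r, A φ ∈ ZmS n r) : WE n r →ₗ[ℝ] WE n r where
  toFun v := ⟨WithLp.toLp 2 (A (WithLp.ofLp v.1)), hA _ v.2⟩
  map_add' v w := by
    apply Subtype.ext
    change WithLp.toLp 2 (A (WithLp.ofLp v.1 + WithLp.ofLp w.1)) = _
    rw [map_add]
    rfl
  map_smul' c v := by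
    apply Subtype.ext
    change WithLp.toLp 2 (A (c • WithLp.ofLp v.1)) = _
    rw [map_smul]
    rfl

/-- the function given by an element of the euclidean subspace -/
def fn (v : WE n r) : Fn n r := WithLp.ofLp v.1

theorem fn_lft (A : Fn n r →ₗ[ℝ] Fn n r) (hA : ∀ φ ∈ ZmS n r, A φ ∈ ZmS n r) (v : WE n r) :
    fn (lft A hA v) = A (fn v) := rfl

theorem fn_injective : Function.Injective (fn : WE n r → Fn n r) := by
  intro v w h
  apply Subtype.ext
  have h1 : WithLp.toLp 2 (fn v) = WithLp.toLp 2 (fn w) := by rw [h]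
  exact h1

theorem fn_pow (A : Fn n r →ₗ[ℝ] Fn n r) (hA : ∀ φ ∈ ZmS n r, A φ ∈ ZmS n r) (m : ℕ)
    (v : WE n r) : fn (((lft A hA) ^ m) v) = (A ^ m) (fn v) := by
  induction m generalizing v with
  | zero => simp
  | succ m ih =>
    rw [pow_succ, pow_succ, Module.End.mul_apply, Module.End.mul_apply, ih, fn_lft]

theorem inner_eq (v w : WE n r) : inner ℝ v w = ip (fn v) (fn w) := by
  rw [Submodule.coe_inner, PiLp.inner_apply]
  unfold ip
  refine Finset.sum_congr rfl (fun a _ => ?_)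
  rw [real_inner_eq_re_inner, RCLike.inner_apply]
  simp [fn, mul_comm]

theorem norm_sq_eq (v : WE n r) : ‖v‖ ^ 2 = ip (fn v) (fn v) := by
  rw [← real_inner_self_eq_norm_sq, inner_eq]

/-! ### the operator lemma -/

theorem op (h : S_OPA) : S_OP := by
  intro n k r m z y ε₁ a hk hε0 hε1 ha hab f μ hf hZ hμ haμ
  have hk0 : (0 : ℝ) < k := by exact_mod_cast hk
  have hk1 : (1 : ℝ) ≤ k := by exact_mod_cast hk
  set L : WE n r →ₗ[ℝ] WE n r := lft (Lz z) (fun φ hφ => Lz_mem z hφ) with hL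
  set Y : WE n r →ₗ[ℝ] WE n r := lft (Act (y : Perm (Fin n))) (fun φ hφ => Act_mem _ hφ) with hY
  set Z : WE n r →ₗ[ℝ] WE n r := lft (Act ((y : Perm (Fin n))⁻¹)) (fun φ hφ => Act_mem _ hφ)
    with hZ'
  let f' : WE n r := ⟨WithLp.toLp 2 f, hZ⟩
  have hff : fn f' = f := rfl
  have hf' : f' ≠ 0 := by
    intro h0
    apply hf
    rw [← hff, h0]
    rfl
  have hN : 0 < ip f f := ip_self_pos hf
  -- the Rayleigh quotients
  have hP := ip_Wk_le hk z f
  have hη := ip_Act_le (y : Perm (Fin n)) f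
  have hμ2 : ip (Wk (Fin.snoc (α := fun _ => Alt n) z y) f) f = μ * ip f f := by
    rw [hμ, ip_smul_left]
  have hsum : ((k : ℝ) + 1) * (μ * ip f f) =
      k * ip (Wk z f) f + ip (Act (y : Perm (Fin n)) f) f := by
    rw [← hμ2, ip_Wk_self, ip_Wk_self, Fin.sum_univ_castSucc]
    simp only [Fin.snoc_castSucc, Fin.snoc_last]
    push_cast
    rw [← mul_assoc, ← mul_assoc, mul_inv_cancel₀ (by positivity), mul_inv_cancel₀ hk0.ne',
      one_mul, one_mul]
  have hμN : (1 - a) * ip f f ≤ μ * ip f f := mul_le_mul_of_nonneg_right haμ hN.le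
  have haN : 0 ≤ a * ip f f := mul_nonneg ha hN.le
  have h1 : ((k : ℝ) + 1) * ((1 - a) * ip f f) ≤
      k * ip (Wk z f) f + ip (Act (y : Perm (Fin n)) f) f := by
    rw [← hsum]
    exact mul_le_mul_of_nonneg_left hμN (by positivity)
  have h2 : ip f f - 2 * (a * ip f f) ≤ ip (Wk z f) f := by
    have h3 : k * (ip f f - 2 * (a * ip f f)) ≤ k * ip (Wk z f) f := by
      nlinarith
    exact le_of_mul_le_mul_left h3 hk0
  have h3 : ip f f - ip (Act (y : Perm (Fin n)) f) f ≤ (k + 1) * (a * ip f f) := by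
    nlinarith [mul_le_mul_of_nonneg_left hP hk0.le]
  obtain ⟨v, lam, hv, hvl, hlam⟩ := h (WE n r) L Y Z m ε₁ a (2 * (k + 1) * a)
    (by
      intro v w
      rw [inner_eq, inner_eq, hL, fn_lft, fn_lft, Lz_symm])
    (by
      intro v
      rw [inner_eq, hL, fn_lft, ip_Lz]
      have := neg_le_ip_Wk hk z (fn v)
      linarith)
    (by
      intro v
      rw [inner_eq, norm_sq_eq, hL, fn_lft, ip_Lz]
      have := ip_Wk_le hk z (fn v)
      linarith)
    (by
      intro v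
      have h4 : ‖Y v‖ ^ 2 = ‖v‖ ^ 2 := by
        rw [norm_sq_eq, norm_sq_eq, hY, fn_lft, ip_Act_Act]
      exact (sq_eq_sq₀ (norm_nonneg _) (norm_nonneg _)).1 h4)
    (by
      intro v
      apply fn_injective
      rw [hY, hZ', fn_lft, fn_lft, Act_Act_inv])
    (by
      intro v
      apply fn_injective
      rw [hY, hZ', fn_lft, fn_lft, Act_inv_Act])
    hε0 hε1 ha (by positivity) hab f' hf'
    (by
      rw [norm_sq_eq, inner_eq, hL, fn_lft, hff, ip_Lz]
      linarith)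
    (by
      rw [norm_sq_eq, norm_sq_eq]
      have h4 : fn (Y f' - f') = Act (y : Perm (Fin n)) f - f := rfl
      rw [h4, hff, ip_sub_left, ip_sub_right, ip_sub_right, ip_Act_Act,
        ip_comm f (Act (y : Perm (Fin n)) f)]
      linarith)
  refine ⟨fn v, lam, ?_, v.2, ?_, hlam⟩
  · intro h0
    apply hv
    apply fn_injective
    rw [h0]
    rfl
  · have h5 := congrArg fn hvl
    simp only [Module.End.mul_apply] at h5
    rw [hL, hY, hZ', fn_pow, fn_lft, fn_pow, fn_lft, fn_pow] at h5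
    have h6 : fn (lam • v) = lam • fn v := rfl
    rw [h6] at h5
    unfold Gop
    simp only [Module.End.mul_apply]
    exact h5

end Pool.Agent.Helper64.AK
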